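import Pool.Agent.W761.CP.Defs

/-!
# On the kernel of the projection the resolvent is small
-/

open scoped InnerProductSpace

namespace Pool.Agent.W692.CP

open Pool.Agent.W761.CP

theorem comp : S_COMP := by
  intro X _ _ _ H z₀ ρ K l T P hρ hK hl hR hsa hpos hn hTP hE hq
  set Y : Submodule ℂ X := LinearMap.ker (P : X →ₗ[ℂ] X) with hY
  set τ : ℝ := ‖T.comp Y.subtypeL‖ with hτdef
  have hτ0 : 0 ≤ τ := ContinuousLinearMap.opNorm_nonneg (T.comp Y.subtypeL)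
  have hτ : ∀ v : X, P v = 0 → ‖T v‖ ≤ τ * ‖v‖ := by
    intro v hv
    have hvY : v ∈ Y := by rw [hY, LinearMap.mem_ker]; exact hv
    have := (T.comp Y.subtypeL).le_opNorm ⟨v, hvY⟩
    simpa using this
  have hτ1 : τ ≤ 1 := by
    refine ContinuousLinearMap.opNorm_le_bound _ zero_le_one fun v => ?_
    rw [one_mul]
    exact hn v
  have hin : ∀ x : X, ⟪x, x⟫_ℂ = ((‖x‖ ^ 2 : ℝ) : ℂ) := fun x => by
    rw [inner_self_eq_norm_sq_to_K]
    norm_cast
  have key : (1 + l) * τ ≤ 1 := by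
    by_contra hcon
    rw [not_le] at hcon
    have hτp : 0 < τ := by
      rcases hτ0.eq_or_lt with h | h
      · rw [← h, mul_zero] at hcon; linarith
      · exact h
    set m : ℝ := 1 / τ - 1 with hm
    have hm0 : 0 ≤ m := by
      rw [hm]
      have : 1 ≤ 1 / τ := by rw [le_div_iff₀ hτp]; linarith
      linarith
    have hml : m < l := by
      rw [hm]
      have : 1 / τ < 1 + l := by rw [div_lt_iff₀ hτp]; exact hcon
      linarith
    have hmz := hE m hm0 hml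
    set D : ℝ := ρ - ‖(m : ℂ) - z₀‖ with hD
    have hDp : 0 < D := by rw [hD]; linarith
    set C : ℝ := ρ * K / D with hC
    have hC0 : 0 ≤ C := by rw [hC]; positivity
    -- the main estimate
    have hmain : ∀ v : X, P v = 0 → ‖T v‖ ^ 2 * (τ ^ 2 + C ^ 2) ≤ C ^ 2 * τ ^ 2 * ‖v‖ ^ 2 := by
      intro v hv
      -- the vector `r`
      set r : X := v - ((1 / τ : ℝ) : ℂ) • T v with hr
      have hmem : (T v, (m : ℂ) • T v + r) ∈ H := by
        have h1 := hR.1 v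
        have h2 : v + (-1 : ℂ) • T v = (m : ℂ) • T v + r := by
          rw [hr, hm]
          push_cast
          module
        rw [h2] at h1
        exact h1
      have h3 := hq (T v) r m hmz hmem
      rw [← hTP, hv, map_zero, zero_sub, norm_neg] at h3
      have h3' : ‖T v‖ ≤ C * ‖r‖ := by
        refine h3.trans (le_of_eq ?_)
        rw [hC, hD]; ring
      -- `‖(T - τ) v‖`
      set s : X := T v - (τ : ℂ) • v with hs
      have hrs : (τ : ℂ) • r = -s := by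
        rw [hr, hs, smul_sub, smul_smul]
        have : (τ : ℂ) * ((1 / τ : ℝ) : ℂ) = 1 := by
          rw [← Complex.ofReal_mul, mul_one_div_cancel hτp.ne', Complex.ofReal_one]
        rw [this, one_smul]
        abel
      have hrs' : τ * ‖r‖ = ‖s‖ := by
        have := congrArg norm hrs
        rw [norm_smul, norm_neg, Complex.norm_real, Real.norm_eq_abs, abs_of_pos hτp] at this
        exact this
      -- `t = T s + τ s`
      set t : X := T s + (τ : ℂ) • s with ht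
      have ht2 : t = T (T v) - ((τ ^ 2 : ℝ) : ℂ) • v := by
        rw [ht, hs, map_sub, map_smul, smul_sub, smul_smul]
        push_cast
        rw [pow_two]
        abel
      have hts : τ * ‖s‖ ≤ ‖t‖ := by
        have h5 : τ * ‖s‖ ^ 2 ≤ (⟪t, s⟫_ℂ).re := by
          rw [ht, inner_add_left, inner_smul_left, Complex.add_re]
          have e1 : ((starRingEnd ℂ) (τ : ℂ) * ⟪s, s⟫_ℂ).re = τ * ‖s‖ ^ 2 := by
            rw [Complex.conj_ofReal, hin, ← Complex.ofReal_mul, Complex.ofReal_re]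
          rw [e1]
          have := hpos s
          linarith
        have h6 : (⟪t, s⟫_ℂ).re ≤ ‖t‖ * ‖s‖ := by
          have := re_inner_le_norm (𝕜 := ℂ) t s
          exact this
        rcases (norm_nonneg s).eq_or_lt with h0 | h0
        · rw [← h0, mul_zero]; exact norm_nonneg _
        · have h7 : (τ * ‖s‖) * ‖s‖ ≤ ‖t‖ * ‖s‖ := by nlinarith
          exact le_of_mul_le_mul_right h7 h0
      have htn : ‖t‖ ^ 2 ≤ τ ^ 2 * (τ ^ 2 * ‖v‖ ^ 2 - ‖T v‖ ^ 2) := by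
        have hTT : ‖T (T v)‖ ≤ τ * ‖T v‖ := hτ _ (by rw [← hTP, hv, map_zero])
        have e1 : ‖t‖ ^ 2 = ‖T (T v)‖ ^ 2 - 2 * (⟪T (T v), ((τ ^ 2 : ℝ) : ℂ) • v⟫_ℂ).re +
            ‖((τ ^ 2 : ℝ) : ℂ) • v‖ ^ 2 := by
          rw [ht2]
          exact norm_sub_sq (𝕜 := ℂ) _ _
        have e2 : (⟪T (T v), ((τ ^ 2 : ℝ) : ℂ) • v⟫_ℂ).re = τ ^ 2 * ‖T v‖ ^ 2 := by
          rw [inner_smul_right, hsa, hin, ← Complex.ofReal_mul, Complex.ofReal_re]
        have e3 : ‖((τ ^ 2 : ℝ) : ℂ) • v‖ ^ 2 = τ ^ 4 * ‖v‖ ^ 2 := by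
          rw [norm_smul, Complex.norm_real, Real.norm_eq_abs, abs_of_nonneg (by positivity)]
          ring
        rw [e1, e2, e3]
        have e4 : ‖T (T v)‖ ^ 2 ≤ τ ^ 2 * ‖T v‖ ^ 2 := by
          rw [← mul_pow]
          exact pow_le_pow_left₀ (norm_nonneg _) hTT 2
        nlinarith
      -- conclusion
      have h8 : τ ^ 2 * ‖s‖ ^ 2 ≤ τ ^ 2 * (τ ^ 2 * ‖v‖ ^ 2 - ‖T v‖ ^ 2) := by
        refine le_trans ?_ htn
        rw [← mul_pow]
        exact pow_le_pow_left₀ (by positivity) hts 2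
      have h9 : ‖s‖ ^ 2 ≤ τ ^ 2 * ‖v‖ ^ 2 - ‖T v‖ ^ 2 :=
        le_of_mul_le_mul_left h8 (by positivity)
      have h10 : ‖T v‖ ^ 2 ≤ C ^ 2 * ‖r‖ ^ 2 := by
        rw [← mul_pow]
        exact pow_le_pow_left₀ (norm_nonneg _) h3' 2
      have h11 : τ ^ 2 * ‖r‖ ^ 2 = ‖s‖ ^ 2 := by rw [← hrs', mul_pow]
      calc ‖T v‖ ^ 2 * (τ ^ 2 + C ^ 2) = τ ^ 2 * ‖T v‖ ^ 2 + C ^ 2 * ‖T v‖ ^ 2 := by ring
        _ ≤ τ ^ 2 * (C ^ 2 * ‖r‖ ^ 2) + C ^ 2 * ‖T v‖ ^ 2 := by gcongr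
        _ = C ^ 2 * ‖s‖ ^ 2 + C ^ 2 * ‖T v‖ ^ 2 := by rw [← h11]; ring
        _ ≤ C ^ 2 * (τ ^ 2 * ‖v‖ ^ 2 - ‖T v‖ ^ 2) + C ^ 2 * ‖T v‖ ^ 2 := by gcongr
        _ = _ := by ring
    -- contradiction with the definition of `τ`
    set q : ℝ := Real.sqrt (C ^ 2 / (τ ^ 2 + C ^ 2)) with hqd
    have hden : 0 < τ ^ 2 + C ^ 2 := by positivity
    have hq1 : q < 1 := by
      rw [hqd, Real.sqrt_lt' one_pos, one_pow, div_lt_one hden]
      have : 0 < τ ^ 2 := by positivity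
      linarith
    have hq0 : 0 ≤ q := Real.sqrt_nonneg _
    have hq2 : q ^ 2 = C ^ 2 / (τ ^ 2 + C ^ 2) := Real.sq_sqrt (by positivity)
    have hle : τ ≤ τ * q := by
      refine ContinuousLinearMap.opNorm_le_bound _ (by positivity) fun v => ?_
      have hv : P (v : X) = 0 := LinearMap.mem_ker.1 v.2
      have h1 := hmain v hv
      have h2 : ‖T (v : X)‖ ^ 2 ≤ (τ * q * ‖(v : X)‖) ^ 2 := by
        rw [mul_pow, mul_pow, hq2]
        rw [← le_div_iff₀ hden] at h1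
        refine h1.trans (le_of_eq ?_)
        ring
      exact (sq_le_sq₀ (norm_nonneg _) (by positivity)).1 h2
    nlinarith
  intro v hv
  calc (1 + l) * ‖T v‖ ≤ (1 + l) * (τ * ‖v‖) := by
        have := hτ v hv
        gcongr
    _ = ((1 + l) * τ) * ‖v‖ := by ring
    _ ≤ 1 * ‖v‖ := by gcongr
    _ = ‖v‖ := one_mul _

end Pool.Agent.W692.CP
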